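import Pool.Agent.Helper20.KP.StH

/-!
# Project KP (MP_26be5b_ag), module HBL: local boundedness
-/

set_option autoImplicit false

namespace Pool.Agent.Helper14.KP

open MeasureTheory Filter Pool.Agent.Helper52.KP Pool.Agent.Helper20.KP
open scoped Topology

theorem hHBL (h1 : StHOC) : Pool.Agent.Helper20.KP.StHBL := by
  intro D hD Y hY F hF y₀ hy
  by_contra hcon
  push Not at hcon
  have hch : ∀ i : ℕ, ∃ x ∈ D.O, ‖Y x - y₀‖ < 1 / ((i : ℝ) + 1) ∧ (i : ℝ) < ‖F x‖ := by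
    intro i
    obtain ⟨x, hx, h2, h3⟩ := hcon (1 / ((i : ℝ) + 1)) (by positivity) i
    exact ⟨x, hx, h2, h3⟩
  choose x hxO hxY hxF using hch
  obtain ⟨a, ha, hbd⟩ := hY.bd
  have hR : ∀ i, x i ∈ Metric.closedBall (0 : Fin D.N → ℂ) ((‖y₀‖ + 1) / a) := by
    intro i
    rw [mem_closedBall_zero_iff, le_div_iff₀ ha, mul_comm]
    have h2 := hbd (x i) (subset_closure (hxO i))
    have h3 : ‖Y (x i)‖ ≤ ‖y₀‖ + ‖Y (x i) - y₀‖ := by
      have := norm_add_le y₀ (Y (x i) - y₀)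
      rwa [add_sub_cancel] at this
    have h4 : ‖Y (x i) - y₀‖ ≤ 1 := by
      refine (hxY i).le.trans ?_
      rw [div_le_one (by positivity)]
      have : (0 : ℝ) ≤ i := Nat.cast_nonneg i
      linarith
    linarith
  obtain ⟨z, -, φ, hφ, hlim⟩ := (isCompact_closedBall (0 : Fin D.N → ℂ)
    ((‖y₀‖ + 1) / a)).tendsto_subseq hR
  have hzc : z ∈ closure D.O :=
    mem_closure_of_tendsto hlim (Eventually.of_forall fun i => hxO (φ i))
  have hYc : Continuous Y := LinearMap.continuous_of_finiteDimensional Y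
  have hYz : Y z = y₀ := by
    have h2 : Tendsto (fun i => Y ((x ∘ φ) i)) atTop (𝓝 (Y z)) := (hYc.tendsto z).comp hlim
    have h3 : Tendsto (fun i => Y ((x ∘ φ) i)) atTop (𝓝 y₀) := by
      rw [tendsto_iff_norm_sub_tendsto_zero]
      have h4 : Tendsto (fun i : ℕ => 1 / ((φ i : ℝ) + 1)) atTop (𝓝 0) :=
        (tendsto_one_div_add_atTop_nhds_zero_nat (𝕜 := ℝ)).comp hφ.tendsto_atTop
      exact squeeze_zero (fun i => norm_nonneg _) (fun i => (hxY (φ i)).le) h4
    exact tendsto_nhds_unique h2 h3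
  have hzO : z ∈ D.O := by
    by_contra h
    exact hy z hzc h hYz
  have hcont := (h1 D hD).1 F hF z hzO
  have h5 : Tendsto (x ∘ φ) atTop (𝓝[D.O] z) :=
    tendsto_nhdsWithin_iff.2 ⟨hlim, Eventually.of_forall fun i => hxO (φ i)⟩
  have h6 : Tendsto (fun i => ‖F ((x ∘ φ) i)‖) atTop (𝓝 ‖F z‖) := (hcont.tendsto.comp h5).norm
  have h7 : Tendsto (fun i => ‖F ((x ∘ φ) i)‖) atTop atTop := by
    refine tendsto_atTop_mono (fun i => (hxF (φ i)).le) ?_
    exact tendsto_natCast_atTop_atTop.comp hφ.tendsto_atTop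
  exact not_tendsto_nhds_of_tendsto_atTop h7 _ h6

end Pool.Agent.Helper14.KP
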