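import Pool.Agent.Helper52.KP.StG
import Pool.Agent.Helper67.NO.Main

/-!
# Project KP (MP_26be5b_ag), module ORB: the orbit
-/

set_option autoImplicit false

namespace Pool.Agent.Helper14.KP

open Pool.Agent.Helper67.NO Pool.Agent.Helper52.KP Matrix
open scoped Matrix.Norms.Frobenius ContDiff Topology

universe u

section Mat

variable {n : Type} [Fintype n] [DecidableEq n]

private theorem exp_mul_neg (Z : Matrix n n ℂ) :
    NormedSpace.exp Z * NormedSpace.exp (-Z) = 1 := by
  rw [← Matrix.exp_add_of_commute Z (-Z) (Commute.neg_right (Commute.refl Z)), add_neg_cancel,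
    NormedSpace.exp_zero]

private theorem exp_neg_mul (Z : Matrix n n ℂ) :
    NormedSpace.exp (-Z) * NormedSpace.exp Z = 1 := by
  have := exp_mul_neg (-Z)
  rwa [neg_neg] at this

private theorem conj_mul (E F Y Z : Matrix n n ℂ) (h : F * E = 1) :
    (E * Y * F) * (E * Z * F) = E * (Y * Z) * F := by
  calc (E * Y * F) * (E * Z * F) = E * Y * (F * E) * Z * F := by simp only [Matrix.mul_assoc]
    _ = E * (Y * Z) * F := by rw [h, Matrix.mul_one]; simp only [Matrix.mul_assoc]

private theorem conj_pow (E F Y : Matrix n n ℂ) (h : F * E = 1) (h' : E * F = 1) (k : ℕ) :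
    (E * Y * F) ^ k = E * Y ^ k * F := by
  induction k with
  | zero => rw [pow_zero, pow_zero, Matrix.mul_one, h']
  | succ k ih => rw [pow_succ, ih, conj_mul E F _ _ h, pow_succ]

omit [DecidableEq n] in
private theorem complete_mat : CompleteSpace (Matrix n n ℂ) := FiniteDimensional.complete ℂ _

private theorem diff_exp (x : Matrix n n ℂ) :
    DifferentiableAt ℂ (NormedSpace.exp : Matrix n n ℂ → Matrix n n ℂ) x := by
  have := complete_mat (n := n)
  exact (NormedSpace.exp_analytic (𝕂 := ℂ) x).differentiableAt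

private theorem deriv_exp_zero :
    HasFDerivAt (NormedSpace.exp : Matrix n n ℂ → Matrix n n ℂ)
      (1 : Matrix n n ℂ →L[ℂ] Matrix n n ℂ) 0 := by
  have := complete_mat (n := n)
  exact hasFDerivAt_exp_zero

omit [DecidableEq n] in
private theorem diff_mulVec {V : Type} [NormedAddCommGroup V] [NormedSpace ℂ V]
    (M : V → Matrix n n ℂ) (w : V → n → ℂ) (hM : Differentiable ℂ M) (hw : Differentiable ℂ w) :
    Differentiable ℂ (fun p => M p *ᵥ w p) := by
  rw [differentiable_pi]
  intro i
  have : (fun p => (M p *ᵥ w p) i) = fun p => ∑ j, M p i j * w p j := by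
    funext p; rfl
  rw [this]
  refine Differentiable.fun_sum fun j _ => ?_
  refine Differentiable.mul ?_ ?_
  · let L : Matrix n n ℂ →ₗ[ℂ] ℂ :=
      { toFun := fun N => N i j
        map_add' := fun _ _ => rfl
        map_smul' := fun _ _ => rfl }
    have hL : Differentiable ℂ (fun N : Matrix n n ℂ => L N) :=
      (LinearMap.toContinuousLinearMap L).differentiable
    exact hL.comp hM
  · exact (differentiable_pi.1 hw) j

end Mat

section Alg

variable {g : Type u} [LieRing g] [LieAlgebra ℂ g] [FiniteDimensional ℂ g]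

private theorem co_eq (x : g) : co x = ⇑((Module.finBasis ℂ g).repr x) := rfl

private theorem co_expAd (x y : g) :
    co (expAd x y) = NormedSpace.exp (adM (Module.finBasis ℂ g) x) *ᵥ co y := by
  have h := (mDAD.{u} (Fin (Module.finrank ℂ g)) g (Module.finBasis ℂ g)).2.2.1 x
  rw [co_eq, co_eq, ← h]
  exact (LinearMap.toMatrix_mulVec_repr _ _ _ _).symm

private theorem co_ad (x y : g) :
    co ⁅x, y⁆ = adM (Module.finBasis ℂ g) x *ᵥ co y := by
  rw [co_eq, co_eq]
  exact (LinearMap.toMatrix_mulVec_repr (Module.finBasis ℂ g) (Module.finBasis ℂ g)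
    (LieAlgebra.ad ℂ g x) y).symm

private theorem co_inj {x y : g} (h : co x = co y) : x = y :=
  (Module.finBasis ℂ g).repr.injective (DFunLike.coe_injective h)

private theorem co_symm (v : Fin (Module.finrank ℂ g) → ℂ) :
    co ((Module.finBasis ℂ g).equivFun.symm v) = v := by
  have := (Module.finBasis ℂ g).equivFun.apply_symm_apply v
  exact this

private theorem expAd_zero (x : g) : expAd (0 : g) x = x := by
  apply co_inj
  rw [co_expAd, map_zero, NormedSpace.exp_zero, Matrix.one_mulVec]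

private theorem expAd_neg (x y : g) : expAd (-x) (expAd x y) = y := by
  apply co_inj
  rw [co_expAd, co_expAd, Matrix.mulVec_mulVec, map_neg, exp_neg_mul, Matrix.one_mulVec]

private theorem adM_conj (x y : g) :
    adM (Module.finBasis ℂ g) (expAd x y) =
      NormedSpace.exp (adM (Module.finBasis ℂ g) x) * adM (Module.finBasis ℂ g) y *
        NormedSpace.exp (-(adM (Module.finBasis ℂ g) x)) :=
  (mDAD.{u} (Fin (Module.finrank ℂ g)) g (Module.finBasis ℂ g)).2.2.2.1 x y

private theorem rk_expAd (x y : g) : rk (expAd x y) = rk y := by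
  have h := (mDAD.{u} (Fin (Module.finrank ℂ g)) g (Module.finBasis ℂ g)).2.2.2.2.2
  unfold rk
  rw [h, h, adM_conj, Matrix.exp_neg, Matrix.rank_mul_eq_left_of_isUnit_det,
    Matrix.rank_mul_eq_right_of_isUnit_det]
  · exact (Matrix.isUnit_iff_isUnit_det _).1 (Matrix.isUnit_exp _)
  · exact Matrix.isUnit_nonsing_inv_det _ ((Matrix.isUnit_iff_isUnit_det _).1 (Matrix.isUnit_exp _))

private theorem nil_iff (x : g) :
    IsNilpotent (LieAlgebra.ad ℂ g x) ↔ IsNilpotent (adM (Module.finBasis ℂ g) x) := by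
  refine ⟨(mDAD.{u} (Fin (Module.finrank ℂ g)) g (Module.finBasis ℂ g)).2.2.2.2.1 x, ?_⟩
  intro h
  have h2 := h.map (LinearMap.toMatrixAlgEquiv (Module.finBasis ℂ g)).symm
  have e : (LinearMap.toMatrixAlgEquiv (Module.finBasis ℂ g)).symm
      (adM (Module.finBasis ℂ g) x) = LieAlgebra.ad ℂ g x :=
    (LinearMap.toMatrixAlgEquiv (Module.finBasis ℂ g)).symm_apply_apply (LieAlgebra.ad ℂ g x)
  rwa [e] at h2

private theorem nil_expAd (x y : g) (h : IsNilpotent (LieAlgebra.ad ℂ g y)) :
    IsNilpotent (LieAlgebra.ad ℂ g (expAd x y)) := by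
  rw [nil_iff] at h ⊢
  obtain ⟨k, hk⟩ := h
  refine ⟨k, ?_⟩
  rw [adM_conj, conj_pow _ _ _ (exp_neg_mul _) (exp_mul_neg _), hk, Matrix.mul_zero,
    Matrix.zero_mul]

private theorem adM_sum {k : ℕ} (X : Fin k → g) (w : Fin k → ℂ) :
    adM (Module.finBasis ℂ g) (∑ j, w j • X j) = ∑ j, w j • adM (Module.finBasis ℂ g) (X j) := by
  rw [map_sum]
  simp only [map_smul]

private theorem orb_trans {x y z : g} (h : Orb x y) (h' : Orb y z) : Orb x z := by
  induction h' with
  | base => exact h
  | step z w _ ih => exact Orb.step _ _ ih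

private theorem orb_symm {x y : g} (h : Orb x y) : Orb y x ∧ rk y = rk x ∧
    (IsNilpotent (LieAlgebra.ad ℂ g x) → IsNilpotent (LieAlgebra.ad ℂ g y)) := by
  induction h with
  | base => exact ⟨Orb.base, rfl, id⟩
  | step z w _ ih =>
    obtain ⟨h1, h2, h3⟩ := ih
    refine ⟨?_, ?_, ?_⟩
    · have h4 : Orb (expAd w z) (expAd (-w) (expAd w z)) := Orb.step _ _ Orb.base
      rw [expAd_neg] at h4
      exact orb_trans h4 h1
    · rw [rk_expAd, h2]
    · exact fun h => nil_expAd w z (h3 h)

private theorem diff_joint (k : ℕ) (X : Fin k → g) :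
    Differentiable ℂ (fun p : (Fin k → ℂ) × (Fin (Module.finrank ℂ g) → ℂ) =>
      NormedSpace.exp (adM (Module.finBasis ℂ g) (∑ j, p.1 j • X j)) *ᵥ p.2) := by
  refine diff_mulVec _ _ ?_ differentiable_snd
  intro p
  refine (diff_exp _).comp p ?_
  simp only [adM_sum]
  refine DifferentiableAt.fun_sum fun j _ => ?_
  refine DifferentiableAt.smul_const ?_ _
  have : Differentiable ℂ (fun p : (Fin k → ℂ) × (Fin (Module.finrank ℂ g) → ℂ) => p.1 j) :=
    (differentiable_pi.1 differentiable_fst) j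
  exact this p

private theorem deriv_chart (k : ℕ) (x : g) (X : Fin k → g) (v : Fin k → ℂ) :
    fderiv ℂ (fun w => co (chart x X w)) 0 v = co ⁅∑ j, v j • X j, x⁆ := by
  let L : (Fin k → ℂ) →ₗ[ℂ] Matrix (Fin (Module.finrank ℂ g)) (Fin (Module.finrank ℂ g)) ℂ :=
    { toFun := fun w => ∑ j, w j • adM (Module.finBasis ℂ g) (X j)
      map_add' := fun w w' => by simp only [Pi.add_apply, add_smul, Finset.sum_add_distrib]
      map_smul' := fun c w => by
        simp only [Pi.smul_apply, smul_eq_mul, RingHom.id_apply, Finset.smul_sum, smul_smul] }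
  let R : Matrix (Fin (Module.finrank ℂ g)) (Fin (Module.finrank ℂ g)) ℂ →ₗ[ℂ]
      (Fin (Module.finrank ℂ g) → ℂ) :=
    { toFun := fun M => M *ᵥ co x
      map_add' := fun M N => Matrix.add_mulVec M N _
      map_smul' := fun c M => Matrix.smul_mulVec c M _ }
  have e : (fun w => co (chart x X w)) = fun w =>
      (LinearMap.toContinuousLinearMap R) (NormedSpace.exp ((LinearMap.toContinuousLinearMap L) w)) := by
    funext w
    show co (expAd (∑ j, w j • X j) x) = NormedSpace.exp (∑ j, w j • adM _ (X j)) *ᵥ co x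
    rw [co_expAd, adM_sum]
  have hL : HasFDerivAt (fun w => (LinearMap.toContinuousLinearMap L) w)
      (LinearMap.toContinuousLinearMap L) 0 := (LinearMap.toContinuousLinearMap L).hasFDerivAt
  have hz : (LinearMap.toContinuousLinearMap L) 0 = 0 := map_zero _
  have h1 := (deriv_exp_zero (n := Fin (Module.finrank ℂ g)))
  rw [← hz] at h1
  have h2 := h1.comp (0 : Fin k → ℂ) hL
  have h3 := (LinearMap.toContinuousLinearMap R).hasFDerivAt.comp (0 : Fin k → ℂ) h2
  rw [e]
  have h4 := h3.fderiv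
  rw [show (fun w => (LinearMap.toContinuousLinearMap R)
    (NormedSpace.exp ((LinearMap.toContinuousLinearMap L) w))) =
    (⇑(LinearMap.toContinuousLinearMap R) ∘
      (NormedSpace.exp ∘ fun w => (LinearMap.toContinuousLinearMap L) w)) from rfl, h4]
  show (∑ j, v j • adM _ (X j)) *ᵥ co x = _
  rw [co_ad, adM_sum]

private theorem frame (x : g) : ∃ X : Fin (rk x) → g, Frm x X := by
  let R := LinearMap.range (LieAlgebra.ad ℂ g x : g →ₗ[ℂ] g)
  let b : Module.Basis (Fin (rk x)) ℂ R := Module.finBasis ℂ R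
  have hb : ∀ i, ∃ y : g, ⁅x, y⁆ = (b i : g) := fun i => (b i).2
  choose y hy using hb
  have e : (fun i => ⁅-(y i), x⁆) = fun i => ((b i : R) : g) := by
    funext i
    rw [neg_lie, lie_skew, hy]
  refine ⟨fun i => -(y i), ?_, ?_⟩
  · rw [e]
    exact b.linearIndependent.map' R.subtype (Submodule.ker_subtype R)
  · rw [e]
    have h1 : Set.range (fun i => ((b i : R) : g)) = R.subtype '' (Set.range b) := by
      rw [← Set.range_comp]; rfl
    rw [h1, Submodule.span_image, b.span_eq, Submodule.map_subtype_top]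

end Alg

section Ss

variable {g : Type u} [LieRing g] [LieAlgebra ℂ g] [FiniteDimensional ℂ g]
  [LieAlgebra.IsSemisimple ℂ g]

private theorem killing : LieAlgebra.IsKilling ℂ g := inferInstance

private theorem adM_inj (b : Module.Basis (Fin (Module.finrank ℂ g)) ℂ g) :
    Function.Injective (adM b) :=
  (mDAD.{u} (Fin (Module.finrank ℂ g)) g b).2.1 killing

private theorem expAd_lie (x y z : g) : expAd x ⁅y, z⁆ = ⁅expAd x y, expAd x z⁆ := by
  have hbr := (mCBS.{u} (Fin (Module.finrank ℂ g)) g (Module.finBasis ℂ g)).1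
  apply adM_inj (Module.finBasis ℂ g)
  rw [adM_conj, ← hbr, ← hbr, adM_conj, adM_conj]
  unfold br
  rw [conj_mul _ _ _ _ (exp_neg_mul _), conj_mul _ _ _ _ (exp_neg_mul _), Matrix.mul_sub,
    Matrix.sub_mul]

omit [LieAlgebra.IsSemisimple ℂ g] in
private theorem kill_expAd (x y z : g) :
    killingForm ℂ g (expAd x y) (expAd x z) = killingForm ℂ g y z := by
  have h := (mDAD.{u} (Fin (Module.finrank ℂ g)) g (Module.finBasis ℂ g)).1
  rw [← h, ← h, adM_conj, adM_conj, conj_mul _ _ _ _ (exp_neg_mul _), Matrix.trace_mul_comm,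
    ← Matrix.mul_assoc, exp_neg_mul, Matrix.one_mul]

private theorem last (x y : g) (hx : x ≠ 0) (hn : IsNilpotent (LieAlgebra.ad ℂ g x))
    (h : Orb x y) : (∃ h : g, ⁅h, y⁆ = y) ∧ ∀ c : ℂ, c ≠ 0 → Orb x (c • y) := by
  have := killing (g := g)
  obtain ⟨b, hb⟩ := mCPT.{u} g
  obtain ⟨-, -, h3⟩ := mDOR.{u} (Fin (Module.finrank ℂ g)) g b hb x hx hn y h
  refine ⟨?_, h3⟩
  have hbr := (mCBS.{u} (Fin (Module.finrank ℂ g)) g b).1
  obtain ⟨H, ⟨h0, rfl⟩, hH⟩ := mHPR (Fin (Module.finrank ℂ g)) (LinearMap.range (adM b)) hb.lie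
    hb.star (adM b y) ⟨y, rfl⟩
    ((mDAD.{u} (Fin (Module.finrank ℂ g)) g b).2.2.2.2.1 y ((orb_symm h).2.2 hn))
  refine ⟨h0, adM_inj b ?_⟩
  rw [← hbr, hH]

end Ss

theorem hORB : Pool.Agent.Helper52.KP.StORB.{u} := by
  intro g _ _ _ _
  refine ⟨?_, ?_, ?_, ?_, ?_, ?_, ?_⟩
  · intro x y z
    exact ⟨expAd_lie x y z, expAd_neg x y, kill_expAd x y z, rk_expAd x y, nil_expAd x y⟩
  · intro x y z h h'
    exact orb_trans h h'
  · intro x y h
    exact orb_symm h
  · intro k x X
    refine ⟨?_, ?_, deriv_chart k x X⟩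
    · refine Differentiable.differentiableOn ?_
      have h1 := diff_joint k X
      have h2 : Differentiable ℂ (fun w : Fin k → ℂ => (w, co x)) :=
        differentiable_id.prodMk (differentiable_const _)
      have h3 := h1.comp h2
      have e : (fun w => co (chart x X w)) = (fun p : (Fin k → ℂ) × (Fin (Module.finrank ℂ g) → ℂ) =>
          NormedSpace.exp (adM (Module.finBasis ℂ g) (∑ j, p.1 j • X j)) *ᵥ p.2) ∘
          (fun w : Fin k → ℂ => (w, co x)) := by
        funext w
        exact co_expAd _ _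
      rw [e]
      exact h3
    · show expAd (∑ j, (0 : Fin k → ℂ) j • X j) x = x
      simp only [Pi.zero_apply, zero_smul, Finset.sum_const_zero]
      exact expAd_zero x
  · intro k X
    have e : (fun p : (Fin k → ℂ) × (Fin (Module.finrank ℂ g) → ℂ) =>
        co (expAd (∑ j, p.1 j • X j) ((Module.finBasis ℂ g).equivFun.symm p.2))) =
        fun p => NormedSpace.exp (adM (Module.finBasis ℂ g) (∑ j, p.1 j • X j)) *ᵥ p.2 := by
      funext p
      rw [co_expAd, co_symm]
    rw [e]
    exact diff_joint k X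
  · exact frame
  · intro x y hx hn h
    exact last x y hx hn h

end Pool.Agent.Helper14.KP
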